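import Pool.Agent.Run7.h827.HL.Final

set_option autoImplicit false

/-! # Holomorphy of twisted topological zeta functions: polynomials with integer weights

Let `f` be a polynomial in the variables `x_i`, `i ∈ σ`, which is homogeneous of degree `g > 0` for some
integer weights `c_i` of the variables. The weights may be positive, negative or zero; for instance,
for all polynomials `f_{t,j}(x)` and `h(x)`, not zero, in variables `x` of weight zero,

  `f = h(x) ∏ t, F_t ^ a t`, `F_t = ∑_j y_{t,j} f_{t,j}(x)` (`blockForm`, `powProd`),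

with further variables `y_{t,j}`, separate for each `t`, is homogeneous of degree `g = gcd (a t)`, for
suitable weights of the `y`; so is `F ^ g`, if `F` is homogeneous of degree one.

The twisted topological zeta function `Z^(e)` is taken from the spaces of jets, as Denef and Loeser do
in their paper on motivic Igusa zeta functions (1998). The class of the cover
`U_{d,k} = {(φ, w) | f(φ) = w ^ k t ^ d mod t ^ (d + 1), w ≠ 0}` (`JetC`) of the set of the `d`-jets on
which `f` has the order `d` is the sum of its parts which belong to the characters `α` with `α ^ k = 1`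
of the group of the `k`-th roots of unity, so the topological zeta function `Y_k` of the series
`∑_{d ≥ 1} [U_{d,k}] 𝕃 ^ (-n d) T ^ d` (`zetaC`) is `∑_{e ∣ k} φ(e) Z^(e)`, and `Z^(e)` is defined by
`φ(e) Z^(e) = ∑_{i k = e} μ(i) Y_k` (`IsTwistedTop`). In terms of a resolution: the cover over the
stratum `E_I°` contributes `gcd(k, m_I) χ(E_I°) ∏_{i ∈ I} 1 / (N_i s + ν_i)`, `I ≠ ∅`, and
`gcd(k, m_I) = ∑_{e ∣ k, e ∣ m_I} φ(e)`. The topological zeta function of a series is its value at
`T = 𝕃 ^ (-s)` under a homomorphism `E` from the Grothendieck ring `𝓜` to a domain `R` with `E(𝕃) ≠ 1`,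
such as the Hodge-Deligne polynomial, and then a homomorphism `ε` from `R` to `ℂ`, such as `u, v ↦ 1`
(`IsTopZeta`). No resolution is used, and the theorems hold for all `E` and `ε`.
(Here `X` is the affine space.)

The proof. Let `j = gcd(k, g)`, `k = j k'`, `g = j g'`. The torus of the pairs `(z, w)` has the coordinates
`v = z ^ g' w ^ k'` and `u = z ^ (-A) w ^ B`, where `A k' + B g' = 1`, and `f(z · φ) = z ^ g f(φ)`, so
`(z, w, φ) ↦ (u, v, z · φ)` is an isomorphism from `𝔾_m × U_{d,k}` to `𝔾_m × U_{d,j}` (`chi_JetC_gcd`).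
So `Y_k = Y_j` depends only on `gcd(k, g)`, and by the inversion of Möbius `Z^(e) = 0` if `e` does not
divide `g`. If `f = p ^ N h`, where `p` divides no power of `h`, then the Bernstein-Sato polynomial has the
roots `-(1 + l) / N`, `0 ≤ l < N` (`mult_roots`), so `exp (2 π i / N)` is an eigenvalue of the monodromy,
by the theorem of Malgrange and Kashiwara: the `exp (2 π i α)`, `α` a root of the Bernstein-Sato
polynomial, are the eigenvalues of the monodromy at the points of `f = 0`. (`OrderOf b r`: `r > 0` is
the order of `exp (2 π i α)` for a root `α` of `b`.) Hence if `g` divides such an `N` and `e` divides the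
order of no eigenvalue, then `e` does not divide `g`, and `Z^(e) = 0`. -/

namespace Pool.Agent.Results.MP_ed311f_ag.WeightedHomogeneous

open MvPolynomial Pool.Agent.H628R4.TP Pool.Agent.W428.MOT Pool.Agent.TH192.DT
  Pool.Agent.TH192.MU Pool.Agent.Run7.h827.HL

/-- **The holomorphy conjecture for polynomials which are homogeneous for integer weights.** Let `f` be
homogeneous of degree `g > 0` for the integer weights `c` of its variables. (1) If `e` does not divide
`g`, then the twisted zeta function of `f` for `e` is zero: `(𝕃 - 1) ∑_{i k = e} μ(i) ∑_{d ≥ 1}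
[U_{d,k}] 𝕃 ^ (-n d) T ^ d = 0` over the Grothendieck ring, and every twisted topological zeta function
`Z^(e)` of `f` is zero (`TwVanish`). (2) The holomorphy conjecture holds for `f` (`HolConj`), even with
`Z^(e) = 0` in the place of a polynomial `Z^(e)`, if `f = p ^ N h` where `g` divides `N > 0` and `p` divides
no power of `h`. (3) In particular it holds for `f = h(x) ∏ t, F_t ^ a t`, `F_t = ∑_j y_{t,j} f_{t,j}(x)`,
for all polynomials `h ≠ 0` and `f_{t,j}` (for each `t` not all zero) and all `a t > 0`; and `Z^(e) = 0`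
if `e` does not divide all the `a t`. -/
theorem result :
    (∀ (σ : Type) [Fintype σ] (f : MvPolynomial σ ℂ) (c : σ → ℤ) (g : ℕ), 0 < g →
      IsWeightedHomogeneous c f (g : ℤ) →
      (∀ e : ℕ, 0 < e → ¬ e ∣ g →
        PowerSeries.C (((Lu ℂ : (MK ℂ)ˣ) : MK ℂ) - 1) * ∑ q ∈ e.divisorsAntidiagonal,
          ((ArithmeticFunction.moebius q.1 : ℤ) : PowerSeries (MK ℂ)) * zetaC f q.2 = 0 ∧
        TwVanish f e) ∧
      ∀ (p h : MvPolynomial σ ℂ) (N : ℕ), f = p ^ N * h → 0 < N → g ∣ N → p ≠ 0 →
        (∀ K, ¬ p ∣ h ^ K) → HolConj f) ∧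
    ∀ (σ T : Type) [Fintype σ] [Fintype T] [DecidableEq T] [Nonempty T] (κ : T → Type)
      [∀ t, Fintype (κ t)] [∀ t, DecidableEq (κ t)] (F : (t : T) → κ t → MvPolynomial σ ℂ)
      (h : MvPolynomial σ ℂ) (a : T → ℕ), h ≠ 0 → (∀ t, ∃ j, F t j ≠ 0) → (∀ t, 0 < a t) →
      HolConj (powProd a F * rename Sum.inr h) ∧
      ∀ e : ℕ, 0 < e → (∃ t, ¬ e ∣ a t) → TwVanish (powProd a F * rename Sum.inr h) e := by
  refine ⟨fun σ _ f c g hg hf => ⟨fun e he hne => ⟨motivic_zero hg (homW_of hf) he hne,
    tw_vanish hg hf he hne⟩, fun p h N hfp hN hgN hp0 hp => hol_main hg hf hfp hN hgN hp0 hp⟩, ?_⟩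
  intro σ T _ _ _ _ κ _ _ F h a hh hne ha
  exact hol_fam F a ha hh hne

end Pool.Agent.Results.MP_ed311f_ag.WeightedHomogeneous
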